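import Pool.Agent.Helper45.LinK.GoalsK

/-! # Packet LATTK: the lattice in the discrete case -/

open Complex Metric Set Filter Topology MeasureTheory
open scoped ContDiff ComplexConjugate ComplexOrder

namespace Pool.Agent.Helper25.LinK

open Pool.Agent.Helper95.Lin Pool.Agent.Helper16.Abund Pool.Agent.Helper92.Orb
open Pool.Agent.Helper45.LinK

/-- A subspace at bounded distance from every point is everything. -/
theorem eq_top_of_near {k : ℕ} (U : Submodule ℝ (Cn k)) (R : ℝ)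
    (h : ∀ w : Cn k, ∃ u ∈ U, ‖w + u‖ ≤ R) : U = ⊤ := by
  rw [eq_top_iff]
  intro x _
  have hcl : IsClosed (U : Set (Cn k)) := U.closed_of_finiteDimensional
  rw [← SetLike.mem_coe, ← hcl.closure_eq, Metric.mem_closure_iff]
  intro ε hε
  obtain ⟨n, hn⟩ := exists_nat_gt (max (R / ε) 0)
  have hn0 : (0 : ℝ) < n := lt_of_le_of_lt (le_max_right _ _) hn
  have hn1 : R / ε < n := lt_of_le_of_lt (le_max_left _ _) hn
  obtain ⟨u, hu, hur⟩ := h ((n : ℝ) • x)
  refine ⟨-((n : ℝ)⁻¹ • u), U.neg_mem (U.smul_mem _ hu), ?_⟩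
  have e : x - -((n : ℝ)⁻¹ • u) = (n : ℝ)⁻¹ • ((n : ℝ) • x + u) := by
    rw [smul_add, smul_smul, inv_mul_cancel₀ hn0.ne', one_smul, sub_neg_eq_add]
  rw [dist_eq_norm, e, norm_smul, norm_inv, Real.norm_eq_abs, abs_of_pos hn0]
  rw [div_lt_iff₀ hε] at hn1
  calc (n : ℝ)⁻¹ * ‖(n : ℝ) • x + u‖ ≤ (n : ℝ)⁻¹ * R :=
        mul_le_mul_of_nonneg_left hur (by positivity)
    _ < ε := by
        rw [inv_mul_lt_iff₀ hn0]
        exact hn1

section latt

variable {b k : ℕ} {D : Set (Cn b)} {Γ : Type} [Group Γ] {g : Γ → Cn b → Cn b}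
  {A : Γ → Cn b → CE k} {β : Γ → Cn b → Cn k}

/-- The elements acting trivially on `D`. -/
def kerG (h : LActK D g A β) : Subgroup Γ where
  carrier := {ν | ∀ y ∈ D, g ν y = y}
  one_mem' := h.base.act.one
  mul_mem' := by
    intro x y hx hy z hz
    rw [h.base.act.mul _ _ z hz, hy z hz, hx z hz]
  inv_mem' := by
    intro x hx z hz
    have h1 := h.base.act.inv_left x hz
    rwa [hx z hz] at h1

/-- The fibrewise translations. -/
def kerT (h : LActK D g A β) : Subgroup Γ where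
  carrier := {ν | ∀ y ∈ D, g ν y = y ∧ A ν y = 1}
  one_mem' := fun y hy => ⟨h.base.act.one y hy, h.a_one y hy⟩
  mul_mem' := by
    intro x y hx hy z hz
    refine ⟨by rw [h.base.act.mul _ _ z hz, (hy z hz).1, (hx z hz).1], ?_⟩
    rw [h.a_mul _ _ z hz, (hy z hz).1, (hx z hz).2, (hy z hz).2, one_mul]
  inv_mem' := by
    intro x hx z hz
    have h1 := h.base.act.inv_left x hz
    rw [(hx z hz).1] at h1
    refine ⟨h1, ?_⟩
    have h2 := h.a_mul x⁻¹ x z hz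
    rw [inv_mul_cancel, h.a_one z hz, (hx z hz).1, (hx z hz).2, mul_one] at h2
    exact h2.symm

/-- The translation part at `z`. -/
def trans (h : LActK D g A β) {z : Cn b} (hz : z ∈ D) : kerT h →* Multiplicative (Cn k) where
  toFun ν := Multiplicative.ofAdd (β (ν : Γ) z)
  map_one' := by
    simp only [OneMemClass.coe_one, h.b_one z hz, ofAdd_zero]
  map_mul' := by
    intro x y
    have hx := x.2 z hz
    have hy := y.2 z hz
    rw [← ofAdd_add]
    congr 1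
    rw [Subgroup.coe_mul, h.b_mul _ _ z hz, hy.1, hx.2, ContinuousLinearMap.one_apply, add_comm]

/-- The linear parts at `z₀` of the elements acting trivially on `D`. -/
def lin (h : LActK D g A β) {z : Cn b} (hz : z ∈ D) : kerG h →* CE k where
  toFun ν := A (ν : Γ) z
  map_one' := by
    simp only [OneMemClass.coe_one, h.a_one z hz]
  map_mul' := by
    intro x y
    rw [Subgroup.coe_mul, h.a_mul _ _ z hz, y.2 z hz]

/-- A product of powers of translations. -/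
def tp (h : LActK D g A β) {n : ℕ} (ν : Fin n → kerT h) (m : Fin n → ℤ) : kerT h :=
  (List.ofFn fun l => ν l ^ m l).prod

theorem tp_eq (h : LActK D g A β) {n : ℕ} (ν : Fin n → kerT h) (m : Fin n → ℤ) {z : Cn b}
    (hz : z ∈ D) : β (tp h ν m : Γ) z = ∑ l, (m l : ℝ) • β (ν l : Γ) z := by
  have h1 : trans h hz (tp h ν m) = ∏ l, trans h hz (ν l) ^ m l := by
    rw [tp, map_list_prod, List.map_ofFn, List.prod_ofFn]
    refine Finset.prod_congr rfl fun l _ => ?_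
    simp only [Function.comp_apply, map_zpow]
  have h2 := congrArg Multiplicative.toAdd h1
  rw [toAdd_prod] at h2
  have h3 : Multiplicative.toAdd (trans h hz (tp h ν m)) = β (tp h ν m : Γ) z := rfl
  rw [h3] at h2
  rw [h2]
  refine Finset.sum_congr rfl fun l _ => ?_
  rw [toAdd_zpow, Int.cast_smul_eq_zsmul]
  rfl

theorem trans_mul (h : LActK D g A β) (x y : kerT h) {z : Cn b} (hz : z ∈ D) :
    β ((x * y : kerT h) : Γ) z = β (x : Γ) z + β (y : Γ) z :=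
  congrArg Multiplicative.toAdd ((trans h hz).map_mul x y)

theorem trans_inv (h : LActK D g A β) (x : kerT h) {z : Cn b} (hz : z ∈ D) :
    β ((x⁻¹ : kerT h) : Γ) z = - β (x : Γ) z :=
  congrArg Multiplicative.toAdd ((trans h hz).map_inv x)

/-- The affine action on the fibre over `z₀`. -/
theorem affN (hF : S_FIBCK) (hU : S_UNI1) (h : LActK D g A β) (hd : Disc D g) {z : Cn b}
    (hz : z ∈ D) : AffN (lin h hz) (fun ν : kerG h => β (ν : Γ) z) where
  mul := by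
    intro x y
    show β ((x * y : kerG h) : Γ) z = A (x : Γ) z (β (y : Γ) z) + β (x : Γ) z
    rw [Subgroup.coe_mul, h.b_mul _ _ z hz, y.2 z hz]
  bdd := by
    obtain ⟨C, hC⟩ := hU h z hz
    exact ⟨C, fun ν => hC ν ν.2⟩
  proper := by
    intro R
    have h1 := h.proper {z} (singleton_subset_iff.2 hz) isCompact_singleton (max R 0)
    refine (h1.preimage (f := fun ν : kerG h => (ν : Γ)) Subtype.coe_injective.injOn).subset ?_
    intro ν hν
    refine ⟨z, rfl, 0, by simp, ν.2 z hz, ?_⟩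
    rw [map_zero, zero_add]
    exact le_trans hν (le_max_left _ _)
  coc := by
    obtain ⟨R, hR⟩ := hF h hd z hz
    refine ⟨R, fun w => ?_⟩
    obtain ⟨γ, hγ, hγR⟩ := hR w
    exact ⟨⟨γ, hγ⟩, hγR⟩

/-- The translations are cocompact on each fibre. -/
theorem near (hF : S_FIBCK) (hU : S_UNI1) (hB : S_BIEB) (hT : S_TRK) (h : LActK D g A β)
    (hd : Disc D g) {z₀ : Cn b} (hz₀ : z₀ ∈ D) {z : Cn b} (hz : z ∈ D) :
    ∃ R : ℝ, ∀ w : Cn k, ∃ τ : kerT h, ‖w + β (τ : Γ) z‖ ≤ R := by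
  have hfin := hB (affN hF hU h hd hz₀)
  choose! ρ hρ using fun (L : CE k) (hL : L ∈ Set.range (lin h hz₀)) => hL
  obtain ⟨R, hR⟩ := hF h hd z hz
  have hR0 : 0 ≤ R := by
    obtain ⟨γ, -, h1⟩ := hR 0
    exact (norm_nonneg _).trans h1
  obtain ⟨C, hC⟩ := (hfin.image fun L : CE k =>
    ‖A ((ρ L : kerG h) : Γ)⁻¹ z‖ * (R + ‖β ((ρ L : kerG h) : Γ) z‖)).bddAbove
  refine ⟨C, fun w => ?_⟩
  obtain ⟨γ, hγ, hγR⟩ := hR w
  set ν : kerG h := ⟨γ, hγ⟩ with hν
  set r : kerG h := ρ (lin h hz₀ ν) with hr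
  have hLr : lin h hz₀ r = lin h hz₀ ν := hρ _ ⟨ν, rfl⟩
  have hτ0 : lin h hz₀ (r⁻¹ * ν) = 1 := by
    have h1 : lin h hz₀ (r⁻¹ * ν) = lin h hz₀ r⁻¹ * lin h hz₀ ν := map_mul _ _ _
    rw [h1, ← hLr, ← map_mul, inv_mul_cancel, map_one]
  have hτA : ∀ y ∈ D, A ((r⁻¹ * ν : kerG h) : Γ) y = 1 :=
    hT h _ (r⁻¹ * ν).2 z₀ hz₀ hτ0
  refine ⟨⟨((r⁻¹ * ν : kerG h) : Γ), fun y hy => ⟨(r⁻¹ * ν).2 y hy, hτA y hy⟩⟩, ?_⟩
  show ‖w + β ((r⁻¹ * ν : kerG h) : Γ) z‖ ≤ C
  have hgr : g (r : Γ)⁻¹ z = z := (r⁻¹).2 z hz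
  have hgr' : g (r : Γ) z = z := r.2 z hz
  have hgν : g γ z = z := hγ z hz
  -- `A_{r⁻¹} A_γ = 1` at `z`
  have hAA : A (r : Γ)⁻¹ z * A γ z = 1 := by
    have h1 := h.a_mul (r : Γ)⁻¹ γ z hz
    rw [hgν] at h1
    rw [← h1]
    exact hτA z hz
  -- `A_{r⁻¹} A_r = 1` at `z`
  have hArr : A (r : Γ)⁻¹ z (β (r : Γ) z) + β (r : Γ)⁻¹ z = 0 := by
    have h1 := h.b_mul (r : Γ)⁻¹ (r : Γ) z hz
    rw [hgr', inv_mul_cancel, h.b_one z hz] at h1
    exact h1.symm
  have hbτ : β ((r⁻¹ * ν : kerG h) : Γ) z = A (r : Γ)⁻¹ z (β γ z) + β (r : Γ)⁻¹ z := by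
    have h1 := h.b_mul (r : Γ)⁻¹ γ z hz
    rw [hgν] at h1
    exact h1
  have e : w + β ((r⁻¹ * ν : kerG h) : Γ) z =
      A (r : Γ)⁻¹ z (A γ z w + β γ z - β (r : Γ) z) := by
    have h2 : A (r : Γ)⁻¹ z (A γ z w) = w := by
      have := congrArg (fun L : CE k => L w) hAA
      simpa using this
    rw [hbτ, map_sub, map_add, h2]
    have h3 : β (r : Γ)⁻¹ z = - A (r : Γ)⁻¹ z (β (r : Γ) z) := by
      rw [eq_neg_iff_add_eq_zero, add_comm]; exact hArr
    rw [h3]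
    abel
  rw [e]
  have hCr : ‖A (r : Γ)⁻¹ z‖ * (R + ‖β (r : Γ) z‖) ≤ C :=
    hC ⟨lin h hz₀ ν, ⟨ν, rfl⟩, rfl⟩
  refine ((A (r : Γ)⁻¹ z).le_opNorm _).trans (le_trans ?_ hCr)
  refine mul_le_mul_of_nonneg_left ?_ (norm_nonneg _)
  exact (norm_sub_le _ _).trans (add_le_add hγR le_rfl)

end latt

theorem LATTK (hF : S_FIBCK) (hU : S_UNI1) (hB : S_BIEB) (hT : S_TRK) : S_LATTK := by
  intro b k D Γ _ g A β h hd
  obtain ⟨z₀, hz₀⟩ := h.base.dom.conn.nonempty
  have hdim : Module.finrank ℝ (Cn k) = 2 * k := by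
    rw [finrank_real_of_complex, Module.finrank_fin_fun]
  set s : Set (Cn k) := Set.range (fun τ : kerT h => β (τ : Γ) z₀) with hs
  have hspan : Submodule.span ℝ s = ⊤ := by
    obtain ⟨R, hR⟩ := near hF hU hB hT h hd hz₀ hz₀
    refine eq_top_of_near _ R fun w => ?_
    obtain ⟨τ, hτ⟩ := hR w
    exact ⟨_, Submodule.subset_span ⟨τ, rfl⟩, hτ⟩
  have key := Submodule.exists_fun_fin_finrank_span_eq ℝ s
  rw [hspan, finrank_top, hdim] at key
  obtain ⟨f, hf, hfs, hfl⟩ := key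
  choose ν hν using hf
  simp only at hν
  refine ⟨fun l => (ν l : Γ), fun l z hz => (ν l).2 z hz, fun z hz => ?_⟩
  -- the elements with small translation part
  set R₁ : ℝ := ∑ l, ‖β (ν l : Γ) z₀‖ with hR₁
  have hT1 : {σ : kerT h | ‖β (σ : Γ) z₀‖ ≤ R₁}.Finite := by
    have h1 := h.proper {z₀} (singleton_subset_iff.2 hz₀) isCompact_singleton (max R₁ 0)
    refine (h1.preimage (f := fun ν : kerT h => (ν : Γ)) Subtype.coe_injective.injOn).subset ?_
    intro σ hσ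
    refine ⟨z₀, rfl, 0, by simp, (σ.2 z₀ hz₀).1, ?_⟩
    rw [map_zero, zero_add]
    exact le_trans hσ (le_max_left _ _)
  obtain ⟨C, hC⟩ := (hT1.image fun σ : kerT h => ‖β (σ : Γ) z‖).bddAbove
  obtain ⟨R, hR⟩ := near hF hU hB hT h hd hz₀ hz
  apply linearIndependent_of_top_le_span_of_card_eq_finrank _ (by rw [Fintype.card_fin, hdim])
  refine (eq_top_of_near _ (R + C) fun w => ?_).ge
  obtain ⟨τ, hτ⟩ := hR w
  have hmem : β (τ : Γ) z₀ ∈ Submodule.span ℝ (Set.range f) := by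
    rw [hfs]; exact Submodule.mem_top
  rw [Submodule.mem_span_range_iff_exists_fun] at hmem
  obtain ⟨x, hx⟩ := hmem
  set m : Fin (2 * k) → ℤ := fun l => ⌊x l⌋ with hm
  set σ : kerT h := (tp h ν m)⁻¹ * τ with hσ
  have hσ0 : β (σ : Γ) z₀ = ∑ l, Int.fract (x l) • β (ν l : Γ) z₀ := by
    rw [hσ, trans_mul h _ _ hz₀, trans_inv h _ hz₀, tp_eq h ν m hz₀, ← hx,
      ← Finset.sum_neg_distrib, ← Finset.sum_add_distrib]
    refine Finset.sum_congr rfl fun l _ => ?_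
    rw [← hν l, ← neg_smul, ← add_smul]
    congr 1
    rw [hm]
    simp only
    have := Int.self_sub_floor (x l)
    linarith
  have hσR : ‖β (σ : Γ) z₀‖ ≤ R₁ := by
    rw [hσ0]
    refine (norm_sum_le _ _).trans (Finset.sum_le_sum fun l _ => ?_)
    rw [norm_smul, Real.norm_eq_abs, abs_of_nonneg (Int.fract_nonneg _)]
    exact mul_le_of_le_one_left (norm_nonneg _) (Int.fract_lt_one _).le
  have hσC : ‖β (σ : Γ) z‖ ≤ C := hC ⟨σ, hσR, rfl⟩
  have hτσ : β (τ : Γ) z = β (tp h ν m : Γ) z + β (σ : Γ) z := by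
    rw [← trans_mul h _ _ hz, hσ, mul_inv_cancel_left]
  refine ⟨β (tp h ν m : Γ) z, ?_, ?_⟩
  · rw [tp_eq h ν m hz]
    refine Submodule.sum_mem _ fun l _ => Submodule.smul_mem _ _ (Submodule.subset_span ⟨l, rfl⟩)
  · have e : w + β (tp h ν m : Γ) z = (w + β (τ : Γ) z) - β (σ : Γ) z := by
      rw [hτσ]; abel
    rw [e]
    exact (norm_sub_le _ _).trans (add_le_add hτ hσC)

end Pool.Agent.Helper25.LinK
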