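import Pool.Agent.Helper45.LinK.GoalsN

/-!
# The inverse of a biholomorphic map is holomorphic
-/

open Complex Metric Set Filter Topology MeasureTheory
open scoped ContDiff ComplexConjugate ComplexOrder Manifold

namespace Pool.Agent.Helper25.LinK

open Pool.Agent.Helper45.LinK
open Pool.Agent.Helper95.Lin Pool.Agent.Helper16.Abund Pool.Agent.Helper92.Orb

theorem invh : S_INVH := by
  intro n M hM Ψ Ψ' hΨ hm hm' hl hr hinj x' hx'
  set x := Ψ' x' with hx
  have hxM : x ∈ M := hm' hx'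
  have hΨx : Ψ x = x' := hr x' hx'
  have hMx : M ∈ 𝓝 x := hM.mem_nhds hxM
  -- the derivative as an equivalence
  have hcd : ContDiffAt ℂ 1 Ψ x := ((holo_contDiffOn hM hΨ).contDiffAt hMx).of_le (by simp)
  have hsd : HasStrictFDerivAt Ψ (fderiv ℂ Ψ x) x := hcd.hasStrictFDerivAt one_ne_zero
  have hinj' : Function.Injective (fderiv ℂ Ψ x).toLinearMap := hinj x hxM
  set e : Cn n ≃L[ℂ] Cn n :=
    (LinearEquiv.ofInjectiveEndo (fderiv ℂ Ψ x).toLinearMap hinj').toContinuousLinearEquiv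
    with he
  have hee : (e : Cn n →L[ℂ] Cn n) = fderiv ℂ Ψ x := by
    ext v
    simp [he]
  have hsd' : HasStrictFDerivAt Ψ (e : Cn n →L[ℂ] Cn n) x := by rw [hee]; exact hsd
  have hmap : map Ψ (𝓝 x) = 𝓝 x' := by
    rw [← hΨx]; exact hsd'.map_nhds_eq_of_equiv
  have hcont : ContinuousAt Ψ' x' := by
    rw [ContinuousAt, ← hx]
    intro U hU
    have h1 : Ψ '' (U ∩ M) ∈ 𝓝 x' := by
      rw [← hmap]
      exact image_mem_map (inter_mem hU hMx)
    rw [mem_map]
    filter_upwards [h1] with y hy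
    obtain ⟨z, ⟨hzU, hzM⟩, rfl⟩ := hy
    show Ψ' (Ψ z) ∈ U
    rw [hl z hzM]; exact hzU
  have hfd : HasFDerivAt Ψ (e : Cn n →L[ℂ] Cn n) (Ψ' x') := hsd'.hasFDerivAt
  have := HasFDerivAt.of_local_left_inverse hcont hfd
    (by filter_upwards [hM.mem_nhds hx'] with y hy using hr y hy)
  exact this.differentiableAt.differentiableWithinAt

end Pool.Agent.Helper25.LinK
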